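import Pool.Agent.Helper460.FlowDefs
import Pool.Agent.Helper460.Cls7

set_option autoImplicit false

namespace Pool.Agent.Results.MP_956d6c_ag.Classification

open Pool.Agent.Helper460.ProjFlow

/-- Classification of the rational projective flows of complex `(n + 1)`-space up to conjugation by
1-homogenic birational transformations. The pair (set of degrees of homogeneous invariants,
field of degree zero invariants) is a complete invariant of a non-identity flow, and the pairs
that occur are exactly: `{0}` with `ℂ(z_1, ..., z_n)`, and `N ℤ` with `E`, for `N ≥ 1` and `E` any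
field extension of `ℂ` with `E(t)` isomorphic to `ℂ(z_1, ..., z_n)`. -/
theorem result (n : ℕ) :
    (∀ f g : RatMap (n + 1), IsFlow f → IsFlow g → ¬ f.IsIdentity → ¬ g.IsIdentity →
      (Conjugate f g ↔
        invDegrees f = invDegrees g ∧ Nonempty (invField f ≃ₐ[ℂ] invField g))) ∧
    (∀ f : RatMap (n + 1), IsFlow f → ¬ f.IsIdentity →
      (invDegrees f = {0} ∧ Nonempty (invField f ≃ₐ[ℂ] RatFun n)) ∨
      ∃ N : ℕ, 1 ≤ N ∧ invDegrees f = {d | (N : ℤ) ∣ d} ∧
        Nonempty (RatFunc (invField f) ≃ₐ[ℂ] RatFun n)) ∧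
    (∃ f : RatMap (n + 1), IsFlow f ∧ ¬ f.IsIdentity ∧ invDegrees f = {0}) ∧
    (∀ (N : ℕ) (E : Type) [Field E] [Algebra ℂ E], 1 ≤ N →
      Nonempty (RatFunc E ≃ₐ[ℂ] RatFun n) →
      ∃ f : RatMap (n + 1), IsFlow f ∧ ¬ f.IsIdentity ∧ invDegrees f = {d | (N : ℤ) ∣ d} ∧
        Nonempty (invField f ≃ₐ[ℂ] E)) :=
  Pool.Agent.Helper460.Flow.classification n

end Pool.Agent.Results.MP_956d6c_ag.Classification
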