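import Pool.Agent.Helper460.FlowList
import Pool.Agent.Helper460.Lst4

set_option autoImplicit false

namespace Pool.Agent.Results.MP_956d6c_ag.ListAndClasses

open Pool.Agent.Helper460.ProjFlow

/-- The rational projective flows of complex `(n + 1)`-space up to conjugation by 1-homogenic
birational transformations.

The list: besides the identity it consists of the flows
`f_A(w u, w) = (w / (w + 1)) (A_(w + 1)(u), 1)`, one for every multiplicative one-parameter group
`A` of birational maps of complex `n`-space. Parts 1 and 2: every `A` gives a flow, and every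
non-identity flow is conjugate to a flow on the list.

The classes: part 3 says when two flows are conjugate, parts 4 to 6 which invariants occur. -/
theorem result (n : ℕ) :
    (∀ A : Family n, IsMultGroup A →
      ∃ f : RatMap (n + 1), IsFlowOf A f ∧ IsFlow f ∧ ¬ f.IsIdentity) ∧
    (∀ g : RatMap (n + 1), IsFlow g → ¬ g.IsIdentity →
      ∃ (A : Family n) (f : RatMap (n + 1)), IsMultGroup A ∧ IsFlowOf A f ∧ IsFlow f ∧
        ¬ f.IsIdentity ∧ Conjugate g f) ∧
    (∀ f g : RatMap (n + 1), IsFlow f → IsFlow g → ¬ f.IsIdentity → ¬ g.IsIdentity →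
      (Conjugate f g ↔
        invDegrees f = invDegrees g ∧ Nonempty (invField f ≃ₐ[ℂ] invField g))) ∧
    (∀ f : RatMap (n + 1), IsFlow f → ¬ f.IsIdentity →
      (invDegrees f = {0} ∧ Nonempty (invField f ≃ₐ[ℂ] RatFun n)) ∨
      ∃ N : ℕ, 1 ≤ N ∧ invDegrees f = {d | (N : ℤ) ∣ d} ∧
        Nonempty (RatFunc (invField f) ≃ₐ[ℂ] RatFun n)) ∧
    (∃ f : RatMap (n + 1), IsFlow f ∧ ¬ f.IsIdentity ∧ invDegrees f = {0}) ∧
    (∀ (N : ℕ) (E : Type) [Field E] [Algebra ℂ E], 1 ≤ N →
      Nonempty (RatFunc E ≃ₐ[ℂ] RatFun n) →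
      ∃ f : RatMap (n + 1), IsFlow f ∧ ¬ f.IsIdentity ∧ invDegrees f = {d | (N : ℤ) ∣ d} ∧
        Nonempty (invField f ≃ₐ[ℂ] E)) :=
  ⟨fun A hA => Pool.Agent.Helper460.Flow.from_group A hA,
    fun g hg hg' => Pool.Agent.Helper460.Flow.list_complete g hg hg',
    Pool.Agent.Helper460.Flow.classification n⟩

end Pool.Agent.Results.MP_956d6c_ag.ListAndClasses
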